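import Mathlib

set_option autoImplicit false

/-!
# MP_ee20a5_al: rigid rational tuples have arbitrarily large ratio gaps

The tuple `(1, 3, 4, 5, 6)` is rigid: from `y₁ = 1`, `y₁ + y₂ = y₃`, `y₁ + y₃ = y₄`,
`y₁ + y₄ = y₅`, `y₂ + y₂ = y₅` one gets `y₂ = 3`.  It is increasing, `|x₁| = 1 ≥ 1` and
`|x₂| = 3 > 2 |x₁|`, so the assertion of Q1 fails already for `n = 5`.

More generally `(1, m, m + 1, …, 2 m)` is rigid for every `m ≥ 1`, so that no constant `C`
whatsoever can replace the factor `2` of Q1.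
-/

namespace Pool.Agent.Results.MP_ee20a5_al.RatioGap

/-- A tuple `x ∈ ℚⁿ` is rigid if it is the only rational tuple satisfying all the equations of the
forms `v i = 1` and `v i + v j = v k` which `x` satisfies. -/
def Rigid {n : ℕ} (x : Fin n → ℚ) : Prop :=
  ∀ y : Fin n → ℚ, (∀ i, x i = 1 → y i = 1) →
    (∀ i j k, x i + x j = x k → y i + y j = y k) → y = x

/-- The tuple `(1, m, m + 1, …, 2 m)`. -/
def tup (m : ℕ) (i : Fin (m + 2)) : ℚ := if i.val = 0 then 1 else (m : ℚ) + (i.val : ℚ) - 1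

theorem tup_zero (m : ℕ) (h : 0 < m + 2) : tup m ⟨0, h⟩ = 1 := by simp [tup]

theorem tup_succ (m i : ℕ) (h : i + 1 < m + 2) : tup m ⟨i + 1, h⟩ = (m : ℚ) + i := by
  simp [tup]
  ring

theorem rigid_tup (m : ℕ) : Rigid (tup m) := by
  intro y h1 h2
  have y0 : y ⟨0, by omega⟩ = 1 := h1 _ (tup_zero m _)
  have step : ∀ i : ℕ, ∀ h : i + 1 < m + 2, y ⟨i + 1, h⟩ = y ⟨1, by omega⟩ + i := by
    intro i
    induction i with
    | zero => intro h; simp
    | succ i ih =>
      intro h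
      have e := h2 ⟨0, by omega⟩ ⟨i + 1, by omega⟩ ⟨i + 1 + 1, h⟩ (by
        rw [tup_zero, tup_succ, tup_succ]; push_cast; ring)
      rw [y0, ih (by omega)] at e
      rw [← e]; push_cast; ring
  have e := h2 ⟨1, by omega⟩ ⟨1, by omega⟩ ⟨m + 1, by omega⟩ (by
    rw [tup_succ m 0, tup_succ m m]; push_cast; ring)
  rw [step m (by omega)] at e
  have y1 : y ⟨1, by omega⟩ = m := by linarith
  funext i
  obtain ⟨i, hi⟩ := i
  rcases i with _ | i
  · rw [y0, tup_zero]
  · rw [step i hi, y1, tup_succ]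

/-- **Q1 is false, with every constant `C` in place of `2`.**  There are a length `n ≥ 2`, a rigid
tuple `x ∈ ℚⁿ` with `|x₁| ≤ ⋯ ≤ |xₙ|` and two consecutive entries with `|x_i| ≥ 1` and
`|x_{i+1}| > C |x_i|`. -/
theorem result : ∀ C : ℚ, ∃ n : ℕ, 2 ≤ n ∧ ∃ x : Fin n → ℚ, Rigid x ∧
    (∀ i j : Fin n, i ≤ j → |x i| ≤ |x j|) ∧
    ∃ (i : ℕ) (hi : i + 1 < n), 1 ≤ |x ⟨i, by omega⟩| ∧
      C * |x ⟨i, by omega⟩| < |x ⟨i + 1, hi⟩| := by
  intro C
  obtain ⟨m, hm⟩ := exists_nat_gt (max C 1)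
  have hC : C < m := lt_of_le_of_lt (le_max_left _ _) hm
  have h1 : (1 : ℚ) < m := lt_of_le_of_lt (le_max_right _ _) hm
  refine ⟨m + 2, by omega, tup m, rigid_tup m, ?_, 0, by omega, ?_, ?_⟩
  · rintro ⟨i, hi⟩ ⟨j, hj⟩ hij
    have hij' : i ≤ j := hij
    rcases i with _ | i
    · rcases j with _ | j
      · exact le_refl _
      · rw [tup_zero, tup_succ, abs_one, abs_of_nonneg (by positivity)]
        have : (0 : ℚ) ≤ j := by positivity
        linarith
    · rcases j with _ | j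
      · omega
      · rw [tup_succ, tup_succ, abs_of_nonneg (by positivity), abs_of_nonneg (by positivity)]
        have : (i : ℚ) ≤ j := by exact_mod_cast (by omega : i ≤ j)
        linarith
  · rw [tup_zero, abs_one]
  · rw [tup_zero, tup_succ, abs_one, abs_of_nonneg (by positivity)]
    push_cast
    linarith

end Pool.Agent.Results.MP_ee20a5_al.RatioGap
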